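import Mathlib

set_option autoImplicit false

open Topology Set

namespace Pool.Agent.Results.MP_68dc86_gt.ShadowNotANR

/-- The Vietoris-Rips complex of `M` at scale `β` (strict inequality), as the set of its simplices:
the nonempty finite subsets `σ` of `M` with `diam σ < β`. -/
def RipsComplex {E : Type} [MetricSpace E] (β : ℝ) (M : Set E) : Set (Finset E) :=
  {σ | σ.Nonempty ∧ (σ : Set E) ⊆ M ∧ Metric.diam (σ : Set E) < β}

/-- The shadow of a family of finite subsets: the union of their convex hulls. -/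
def Shadow {E : Type} [AddCommGroup E] [Module ℝ E] (K : Set (Finset E)) : Set E :=
  ⋃ σ ∈ K, convexHull ℝ (σ : Set E)

/-- A topological space `Y` is an ANR: it is metrizable, and for every closed embedding `e` of `Y`
in a metrizable space `Z` there are a neighbourhood `U` of `e(Y)` and a continuous `r : U → Y`
with `r (e y) = y` for all `y` (that is, `U` retracts onto the copy `e(Y)` of `Y`). -/
def IsANR (Y : Type) [TopologicalSpace Y] : Prop :=
  TopologicalSpace.MetrizableSpace Y ∧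
    ∀ (Z : Type) [TopologicalSpace Z] [TopologicalSpace.MetrizableSpace Z] (e : Y → Z),
      IsClosedEmbedding e →
        ∃ U ∈ 𝓝ˢ (range e), ∃ r : U → Y, Continuous r ∧
          ∀ (y : Y) (hy : e y ∈ U), r ⟨e y, hy⟩ = y

section Construction

/-- The point with first three coordinates `s*a`, `s*b`, `s*c` and all others zero. -/
noncomputable def P (N : ℕ) (s a b c : ℝ) : EuclideanSpace ℝ (Fin N) :=
  WithLp.toLp 2 (fun i => if i.val = 0 then s * a else if i.val = 1 then s * b else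
    if i.val = 2 then s * c else 0)

/-- The index `0`. -/
def i0 (N : ℕ) (hN : 3 ≤ N) : Fin N := ⟨0, by omega⟩
/-- The index `1`. -/
def i1 (N : ℕ) (hN : 3 ≤ N) : Fin N := ⟨1, by omega⟩
/-- The index `2`. -/
def i2 (N : ℕ) (hN : 3 ≤ N) : Fin N := ⟨2, by omega⟩

variable {N : ℕ} (hN : 3 ≤ N)

theorem P_i0 (s a b c : ℝ) : (P N s a b c) (i0 N hN) = s * a := by simp [P, i0]
theorem P_i1 (s a b c : ℝ) : (P N s a b c) (i1 N hN) = s * b := by simp [P, i1]
theorem P_i2 (s a b c : ℝ) : (P N s a b c) (i2 N hN) = s * c := by simp [P, i2]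

include hN in
theorem dist_P {s : ℝ} (hs : 0 < s) (a b c a' b' c' : ℝ) :
    dist (P N s a b c) (P N s a' b' c') =
      s * Real.sqrt ((a - a') ^ 2 + (b - b') ^ 2 + (c - c') ^ 2) := by
  rw [EuclideanSpace.dist_eq]
  have hsum : ∑ i : Fin N, dist ((P N s a b c) i) ((P N s a' b' c') i) ^ 2 =
      s ^ 2 * ((a - a') ^ 2 + (b - b') ^ 2 + (c - c') ^ 2) := by
    have h1 : ∑ i : Fin N, dist ((P N s a b c) i) ((P N s a' b' c') i) ^ 2 =
        ∑ i ∈ ({i0 N hN, i1 N hN, i2 N hN} : Finset (Fin N)),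
          dist ((P N s a b c) i) ((P N s a' b' c') i) ^ 2 := by
      symm
      apply Finset.sum_subset (Finset.subset_univ _)
      intro i _ hi
      simp only [Finset.mem_insert, Finset.mem_singleton, not_or] at hi
      have h0 : i.val ≠ 0 := fun h => hi.1 (Fin.ext h)
      have h1 : i.val ≠ 1 := fun h => hi.2.1 (Fin.ext h)
      have h2 : i.val ≠ 2 := fun h => hi.2.2 (Fin.ext h)
      simp [P, h0, h1, h2]
    rw [h1]
    have h01 : i0 N hN ≠ i1 N hN := by simp [i0, i1]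
    have h02 : i0 N hN ≠ i2 N hN := by simp [i0, i2]
    have h12 : i1 N hN ≠ i2 N hN := by simp [i1, i2]
    rw [Finset.sum_insert (by simp [h01, h02]), Finset.sum_insert (by simp [h12]),
      Finset.sum_singleton, P_i0, P_i0, P_i1, P_i1, P_i2, P_i2]
    simp only [Real.dist_eq, sq_abs]
    ring
  rw [hsum, Real.sqrt_mul (by positivity), Real.sqrt_sq hs.le]

include hN in
/-- Two points at squared distance at least `2500` (in units of `s`) are at distance at least
`s * 50`. -/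
theorem le_dist_P {s : ℝ} (hs : 0 < s) {a b c a' b' c' : ℝ}
    (h : 2500 ≤ (a - a') ^ 2 + (b - b') ^ 2 + (c - c') ^ 2) :
    s * 50 ≤ dist (P N s a b c) (P N s a' b' c') := by
  rw [dist_P hN hs]
  apply mul_le_mul_of_nonneg_left _ hs.le
  apply Real.le_sqrt_of_sq_le
  norm_num
  exact h

include hN in
/-- Two points at squared distance less than `2500` (in units of `s`) are at distance less than
`s * 50`. -/
theorem dist_P_lt {s : ℝ} (hs : 0 < s) {a b c a' b' c' : ℝ}
    (h : (a - a') ^ 2 + (b - b') ^ 2 + (c - c') ^ 2 < 2500) :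
    dist (P N s a b c) (P N s a' b' c') < s * 50 := by
  rw [dist_P hN hs]
  apply mul_lt_mul_of_pos_left _ hs
  rw [Real.sqrt_lt' (by norm_num)]
  norm_num
  exact h

theorem continuous_P {X : Type} [TopologicalSpace X] (s : ℝ) {a b c : X → ℝ} (ha : Continuous a)
    (hb : Continuous b) (hc : Continuous c) : Continuous (fun x => P N s (a x) (b x) (c x)) := by
  unfold P
  apply (PiLp.continuous_toLp 2 _).comp
  apply continuous_pi
  intro i
  split_ifs <;> fun_prop

/-- The set of heights `{0} ∪ {2^{-n}}`. -/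
def Hts : Set ℝ := insert 0 (range (fun n : ℕ => (1 / 2 : ℝ) ^ n))

theorem isCompact_Hts : IsCompact Hts := by
  have h : Filter.Tendsto (fun n : ℕ => (1 / 2 : ℝ) ^ n) Filter.atTop (𝓝 0) :=
    tendsto_pow_atTop_nhds_zero_of_lt_one (by norm_num) (by norm_num)
  exact h.isCompact_insert_range

theorem Hts_gap {x y : ℝ} (hx : x ∈ Hts) (hy : y ∈ Hts) (hxy : x ≠ y) :
    y ^ 2 / 4 ≤ (x - y) ^ 2 := by
  have key : ∀ m n : ℕ, m ≠ n → ((1 / 2 : ℝ) ^ n) ^ 2 / 4 ≤ ((1 / 2 : ℝ) ^ m - (1 / 2 : ℝ) ^ n) ^ 2 := by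
    intro m n hmn
    rcases lt_or_gt_of_ne hmn with h | h
    · -- m < n : x ≥ 2 y
      obtain ⟨k, rfl⟩ : ∃ k, n = m + k + 1 := ⟨n - m - 1, by omega⟩
      have hm : 0 < (1 / 2 : ℝ) ^ m := by positivity
      have hk : (1 / 2 : ℝ) ^ k ≤ 1 := pow_le_one₀ (by norm_num) (by norm_num)
      have hk0 : 0 < (1 / 2 : ℝ) ^ k := by positivity
      have e : (1 / 2 : ℝ) ^ (m + k + 1) = (1 / 2 : ℝ) ^ m * ((1 / 2 : ℝ) ^ k * (1 / 2)) := by
        rw [pow_add, pow_add]; ring
      rw [e]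
      set u := (1 / 2 : ℝ) ^ m
      set v := (1 / 2 : ℝ) ^ k
      have h1 : u * (v * (1 / 2)) / 2 ≤ u - u * (v * (1 / 2)) := by nlinarith
      have h2 : 0 ≤ u * (v * (1 / 2)) / 2 := by positivity
      have h3 : (u * (v * (1 / 2)) / 2) ^ 2 ≤ (u - u * (v * (1 / 2))) ^ 2 := by
        apply pow_le_pow_left₀ h2 h1
      calc (u * (v * (1 / 2))) ^ 2 / 4 = (u * (v * (1 / 2)) / 2) ^ 2 := by ring
        _ ≤ _ := h3
    · -- n < m : x ≤ y / 2
      obtain ⟨k, rfl⟩ : ∃ k, m = n + k + 1 := ⟨m - n - 1, by omega⟩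
      have hm : 0 < (1 / 2 : ℝ) ^ n := by positivity
      have hk : (1 / 2 : ℝ) ^ k ≤ 1 := pow_le_one₀ (by norm_num) (by norm_num)
      have hk0 : 0 < (1 / 2 : ℝ) ^ k := by positivity
      have e : (1 / 2 : ℝ) ^ (n + k + 1) = (1 / 2 : ℝ) ^ n * ((1 / 2 : ℝ) ^ k * (1 / 2)) := by
        rw [pow_add, pow_add]; ring
      rw [e]
      set u := (1 / 2 : ℝ) ^ n
      set v := (1 / 2 : ℝ) ^ k
      have h1 : u / 2 ≤ u - u * (v * (1 / 2)) := by nlinarith
      have h2 : 0 ≤ u / 2 := by positivity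
      have h3 : (u / 2) ^ 2 ≤ (u - u * (v * (1 / 2))) ^ 2 := pow_le_pow_left₀ h2 h1 2
      calc u ^ 2 / 4 = (u / 2) ^ 2 := by ring
        _ ≤ (u - u * (v * (1 / 2))) ^ 2 := h3
        _ = (u * (v * (1 / 2)) - u) ^ 2 := by ring
  rcases hx with rfl | ⟨m, rfl⟩
  · rw [zero_sub, neg_sq]
    nlinarith [sq_nonneg y]
  · rcases hy with rfl | ⟨n, rfl⟩
    · simp only [ne_eq, OfNat.ofNat_ne_zero, not_false_eq_true, zero_pow, zero_div, sub_zero]
      positivity
    · exact key m n (fun h => hxy (by rw [h]))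

theorem Hts_bounds {x : ℝ} (hx : x ∈ Hts) : 0 ≤ x ∧ x ≤ 1 := by
  rcases hx with rfl | ⟨m, rfl⟩
  · norm_num
  · exact ⟨by positivity, pow_le_one₀ (by norm_num) (by norm_num)⟩

theorem Hts_not {n : ℕ} : (3 / 4 : ℝ) * (1 / 2) ^ n ∉ Hts := by
  intro h
  rcases h with h | ⟨m, h⟩
  · have : (0 : ℝ) < (3 / 4 : ℝ) * (1 / 2) ^ n := by positivity
    linarith
  · simp only at h
    rcases le_or_gt m n with hmn | hmn
    · have h1 : (1 / 2 : ℝ) ^ n ≤ (1 / 2) ^ m :=
        pow_le_pow_of_le_one (by norm_num) (by norm_num) hmn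
      have h2 : (0 : ℝ) < (1 / 2) ^ n := by positivity
      linarith
    · have h1 : (1 / 2 : ℝ) ^ m ≤ (1 / 2) ^ (n + 1) :=
        pow_le_pow_of_le_one (by norm_num) (by norm_num) hmn
      have h2 : (0 : ℝ) < (1 / 2) ^ n := by positivity
      rw [pow_succ] at h1
      linarith

/-- `t_0^x`. -/
noncomputable def T0 (N : ℕ) (s x : ℝ) := P N s (-14) 22 x
/-- `t_1^x`. -/
noncomputable def T1 (N : ℕ) (s x : ℝ) := P N s 14 22 x
/-- `t_2^x`. -/
noncomputable def T2 (N : ℕ) (s x : ℝ) := P N s 0 (-26 + x ^ 2 / 384) x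
/-- `r_0`. -/
noncomputable def R0 (N : ℕ) (s : ℝ) := P N s 14 (-22) 0
/-- `r_1`. -/
noncomputable def R1 (N : ℕ) (s : ℝ) := P N s (-14) (-22) 0
/-- `r_2`. -/
noncomputable def R2 (N : ℕ) (s : ℝ) := P N s 0 25 0

/-- The compact set of the counterexample. -/
noncomputable def MM (N : ℕ) (s : ℝ) : Set (EuclideanSpace ℝ (Fin N)) :=
  {R0 N s, R1 N s, R2 N s} ∪ (T0 N s '' Hts ∪ (T1 N s '' Hts ∪ T2 N s '' Hts))

theorem isCompact_MM (s : ℝ) : IsCompact (MM N s) := by
  apply IsCompact.union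
  · exact (Set.toFinite _).isCompact
  · apply IsCompact.union
    · exact isCompact_Hts.image (continuous_P s continuous_const continuous_const continuous_id)
    · apply IsCompact.union
      · exact isCompact_Hts.image (continuous_P s continuous_const continuous_const continuous_id)
      · refine isCompact_Hts.image (continuous_P s continuous_const ?_ continuous_id)
        fun_prop

/-- A linear inequality valid on a set is valid on its convex hull. -/
theorem hull_ge {σ : Set (EuclideanSpace ℝ (Fin N))} {z : EuclideanSpace ℝ (Fin N)}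
    (hz : z ∈ convexHull ℝ σ) (i j : Fin N) (α γ c : ℝ)
    (h : ∀ p ∈ σ, c ≤ α * p i + γ * p j) : c ≤ α * z i + γ * z j := by
  have hconv : Convex ℝ {p : EuclideanSpace ℝ (Fin N) | c ≤ α * p i + γ * p j} := by
    intro p hp q hq a b ha hb hab
    simp only [mem_ofPred_eq, PiLp.add_apply, PiLp.smul_apply, smul_eq_mul] at hp hq ⊢
    calc c = a * c + b * c := by rw [← add_mul, hab, one_mul]
      _ ≤ a * (α * p i + γ * p j) + b * (α * q i + γ * q j) :=
        add_le_add (mul_le_mul_of_nonneg_left hp ha) (mul_le_mul_of_nonneg_left hq hb)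
      _ = α * (a * p i + b * q i) + γ * (a * p j + b * q j) := by ring
  exact convexHull_min (s := σ) (fun p hp => h p hp) hconv hz

/-- A coordinate that is constant on a set is constant on its convex hull. -/
theorem hull_eq {σ : Set (EuclideanSpace ℝ (Fin N))} {z : EuclideanSpace ℝ (Fin N)}
    (hz : z ∈ convexHull ℝ σ) (i : Fin N) (c : ℝ)
    (h : ∀ p ∈ σ, p i = c) : z i = c := by
  have h1 := hull_ge hz i i 1 0 c (fun p hp => by rw [h p hp]; linarith)
  have h2 := hull_ge hz i i (-1) 0 (-c) (fun p hp => by rw [h p hp]; linarith)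
  linarith

/-- Heights of the points of the shadow that are near the axis. -/
theorem key {s : ℝ} (hs : 0 < s) {σ : Finset (EuclideanSpace ℝ (Fin N))}
    (hσM : (σ : Set (EuclideanSpace ℝ (Fin N))) ⊆ MM N s)
    (hσ : Metric.diam (σ : Set (EuclideanSpace ℝ (Fin N))) < s * 50)
    {z : EuclideanSpace ℝ (Fin N)} (hz : z ∈ convexHull ℝ (σ : Set (EuclideanSpace ℝ (Fin N))))
    (hz0 : |z (i0 N hN)| < s) (hz1 : |z (i1 N hN)| < s) :
    ∃ x ∈ Hts, z (i2 N hN) = s * x := by
  have hdist : ∀ p ∈ σ, ∀ q ∈ σ, dist p q < s * 50 := fun p hp q hq =>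
    (Metric.dist_le_diam_of_mem σ.finite_toSet.isBounded hp hq).trans_lt hσ
  obtain ⟨hz0l, hz0u⟩ := abs_lt.1 hz0
  obtain ⟨hz1l, hz1u⟩ := abs_lt.1 hz1
  -- non-adjacency r_i, t_i^x
  have n0 : ∀ x ∈ Hts, T0 N s x ∈ σ → R0 N s ∈ σ → False := by
    intro x _ h1 h2
    have h3 := hdist _ h1 _ h2
    have h4 : s * 50 ≤ dist (T0 N s x) (R0 N s) := by
      apply le_dist_P hN hs
      nlinarith [sq_nonneg (x - 0)]
    linarith
  have n1 : ∀ x ∈ Hts, T1 N s x ∈ σ → R1 N s ∈ σ → False := by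
    intro x _ h1 h2
    have h3 := hdist _ h1 _ h2
    have h4 : s * 50 ≤ dist (T1 N s x) (R1 N s) := by
      apply le_dist_P hN hs
      nlinarith [sq_nonneg (x - 0)]
    linarith
  have n2 : ∀ x ∈ Hts, T2 N s x ∈ σ → R2 N s ∈ σ → False := by
    intro x hx h1 h2
    obtain ⟨hx0, hx1⟩ := Hts_bounds hx
    have h3 := hdist _ h1 _ h2
    have h4 : s * 50 ≤ dist (T2 N s x) (R2 N s) := by
      apply le_dist_P hN hs
      have h5 : x ^ 2 ≤ 1 := by nlinarith
      have h6 : (50 : ℝ) ≤ 25 - (-26 + x ^ 2 / 384) := by linarith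
      nlinarith [sq_nonneg (x - 0)]
    linarith
  -- equality of heights
  have e0 : ∀ x ∈ Hts, ∀ y ∈ Hts, T0 N s x ∈ σ → T2 N s y ∈ σ → x = y := by
    intro x hx y hy h1 h2
    by_contra hne
    have h3 := hdist _ h1 _ h2
    have h5 := Hts_gap hx hy hne
    have h4 : s * 50 ≤ dist (T0 N s x) (T2 N s y) := by
      apply le_dist_P hN hs
      nlinarith [sq_nonneg (y ^ 2)]
    linarith
  have e1 : ∀ x ∈ Hts, ∀ y ∈ Hts, T1 N s x ∈ σ → T2 N s y ∈ σ → x = y := by
    intro x hx y hy h1 h2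
    by_contra hne
    have h3 := hdist _ h1 _ h2
    have h5 := Hts_gap hx hy hne
    have h4 : s * 50 ≤ dist (T1 N s x) (T2 N s y) := by
      apply le_dist_P hN hs
      nlinarith [sq_nonneg (y ^ 2)]
    linarith
  -- classification of the vertices
  have cls : ∀ p ∈ σ, p = R0 N s ∨ p = R1 N s ∨ p = R2 N s ∨ (∃ x ∈ Hts, p = T0 N s x) ∨
      (∃ x ∈ Hts, p = T1 N s x) ∨ (∃ x ∈ Hts, p = T2 N s x) := by
    intro p hp
    rcases hσM hp with (h | h | h) | (⟨x, hx, rfl⟩ | ⟨x, hx, rfl⟩ | ⟨x, hx, rfl⟩)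
    · exact Or.inl h
    · exact Or.inr (Or.inl h)
    · exact Or.inr (Or.inr (Or.inl h))
    · exact Or.inr (Or.inr (Or.inr (Or.inl ⟨x, hx, rfl⟩)))
    · exact Or.inr (Or.inr (Or.inr (Or.inr (Or.inl ⟨x, hx, rfl⟩))))
    · exact Or.inr (Or.inr (Or.inr (Or.inr (Or.inr ⟨x, hx, rfl⟩))))
  -- linear estimates
  have est : ∀ (α γ : ℝ), |α| + |γ| ≤ 3 →
      (∀ p ∈ σ, s * 4 ≤ α * p (i0 N hN) + γ * p (i1 N hN)) → False := by
    intro α γ hαγ h
    have h1 := hull_ge hz (i0 N hN) (i1 N hN) α γ (s * 4) h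
    have h2 : α * z (i0 N hN) ≤ |α| * s := by
      calc α * z (i0 N hN) ≤ |α * z (i0 N hN)| := le_abs_self _
        _ = |α| * |z (i0 N hN)| := abs_mul _ _
        _ ≤ |α| * s := mul_le_mul_of_nonneg_left hz0.le (abs_nonneg _)
    have h3 : γ * z (i1 N hN) ≤ |γ| * s := by
      calc γ * z (i1 N hN) ≤ |γ * z (i1 N hN)| := le_abs_self _
        _ = |γ| * |z (i1 N hN)| := abs_mul _ _
        _ ≤ |γ| * s := mul_le_mul_of_nonneg_left hz1.le (abs_nonneg _)
    nlinarith
  -- presence or absence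
  have vR0 : ∀ α γ : ℝ, α * (R0 N s) (i0 N hN) + γ * (R0 N s) (i1 N hN) = s * (α * 14 - γ * 22) := by
    intro α γ; rw [R0, P_i0, P_i1]; ring
  have vR1 : ∀ α γ : ℝ, α * (R1 N s) (i0 N hN) + γ * (R1 N s) (i1 N hN) = s * (-(α * 14) - γ * 22) := by
    intro α γ; rw [R1, P_i0, P_i1]; ring
  have vR2 : ∀ α γ : ℝ, α * (R2 N s) (i0 N hN) + γ * (R2 N s) (i1 N hN) = s * (γ * 25) := by
    intro α γ; rw [R2, P_i0, P_i1]; ring
  have vT0 : ∀ α γ x : ℝ, α * (T0 N s x) (i0 N hN) + γ * (T0 N s x) (i1 N hN) =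
      s * (-(α * 14) + γ * 22) := by
    intro α γ x; rw [T0, P_i0, P_i1]; ring
  have vT1 : ∀ α γ x : ℝ, α * (T1 N s x) (i0 N hN) + γ * (T1 N s x) (i1 N hN) =
      s * (α * 14 + γ * 22) := by
    intro α γ x; rw [T1, P_i0, P_i1]; ring
  have vT2 : ∀ α γ x : ℝ, α * (T2 N s x) (i0 N hN) + γ * (T2 N s x) (i1 N hN) =
      s * (γ * (-26 + x ^ 2 / 384)) := by
    intro α γ x; rw [T2, P_i0, P_i1]; ring
  have hT2 : ∀ x ∈ Hts, s * 4 ≤ s * (-1 * (-26 + x ^ 2 / 384)) := by
    intro x hx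
    obtain ⟨hx0, hx1⟩ := Hts_bounds hx
    apply mul_le_mul_of_nonneg_left _ hs.le
    nlinarith
  by_cases t0 : ∃ x ∈ Hts, T0 N s x ∈ σ
  · by_cases t1 : ∃ x ∈ Hts, T1 N s x ∈ σ
    · by_cases t2 : ∃ x ∈ Hts, T2 N s x ∈ σ
      · obtain ⟨x0, hx0, hx0σ⟩ := t0
        obtain ⟨x1, hx1, hx1σ⟩ := t1
        obtain ⟨y, hy, hyσ⟩ := t2
        refine ⟨y, hy, hull_eq hz _ _ ?_⟩
        intro p hp
        rcases cls p hp with rfl | rfl | rfl | ⟨x, hx, rfl⟩ | ⟨x, hx, rfl⟩ | ⟨x, hx, rfl⟩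
        · exact (n0 x0 hx0 hx0σ hp).elim
        · exact (n1 x1 hx1 hx1σ hp).elim
        · exact (n2 y hy hyσ hp).elim
        · rw [T0, P_i2, e0 x hx y hy hp hyσ]
        · rw [T1, P_i2, e1 x hx y hy hp hyσ]
        · rw [T2, P_i2, ← e0 x0 hx0 x hx hx0σ hp, e0 x0 hx0 y hy hx0σ hyσ]
      · exfalso
        obtain ⟨x0, hx0, hx0σ⟩ := t0
        obtain ⟨x1, hx1, hx1σ⟩ := t1
        apply est 0 1 (by norm_num)
        intro p hp
        rcases cls p hp with rfl | rfl | rfl | ⟨x, hx, rfl⟩ | ⟨x, hx, rfl⟩ | ⟨x, hx, rfl⟩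
        · exact (n0 x0 hx0 hx0σ hp).elim
        · exact (n1 x1 hx1 hx1σ hp).elim
        · rw [vR2]; linarith
        · rw [vT0]; linarith
        · rw [vT1]; linarith
        · exact (t2 ⟨x, hx, hp⟩).elim
    · by_cases t2 : ∃ x ∈ Hts, T2 N s x ∈ σ
      · exfalso
        obtain ⟨x0, hx0, hx0σ⟩ := t0
        obtain ⟨y, hy, hyσ⟩ := t2
        apply est (-2) (-1) (by norm_num)
        intro p hp
        rcases cls p hp with rfl | rfl | rfl | ⟨x, hx, rfl⟩ | ⟨x, hx, rfl⟩ | ⟨x, hx, rfl⟩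
        · exact (n0 x0 hx0 hx0σ hp).elim
        · rw [vR1]; linarith
        · exact (n2 y hy hyσ hp).elim
        · rw [vT0]; linarith
        · exact (t1 ⟨x, hx, hp⟩).elim
        · rw [vT2]; exact hT2 x hx
      · exfalso
        obtain ⟨x0, hx0, hx0σ⟩ := t0
        apply est (-2) 1 (by norm_num)
        intro p hp
        rcases cls p hp with rfl | rfl | rfl | ⟨x, hx, rfl⟩ | ⟨x, hx, rfl⟩ | ⟨x, hx, rfl⟩
        · exact (n0 x0 hx0 hx0σ hp).elim
        · rw [vR1]; linarith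
        · rw [vR2]; linarith
        · rw [vT0]; linarith
        · exact (t1 ⟨x, hx, hp⟩).elim
        · exact (t2 ⟨x, hx, hp⟩).elim
  · by_cases t1 : ∃ x ∈ Hts, T1 N s x ∈ σ
    · by_cases t2 : ∃ x ∈ Hts, T2 N s x ∈ σ
      · exfalso
        obtain ⟨x1, hx1, hx1σ⟩ := t1
        obtain ⟨y, hy, hyσ⟩ := t2
        apply est 2 (-1) (by norm_num)
        intro p hp
        rcases cls p hp with rfl | rfl | rfl | ⟨x, hx, rfl⟩ | ⟨x, hx, rfl⟩ | ⟨x, hx, rfl⟩
        · rw [vR0]; linarith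
        · exact (n1 x1 hx1 hx1σ hp).elim
        · exact (n2 y hy hyσ hp).elim
        · exact (t0 ⟨x, hx, hp⟩).elim
        · rw [vT1]; linarith
        · rw [vT2]; exact hT2 x hx
      · exfalso
        obtain ⟨x1, hx1, hx1σ⟩ := t1
        apply est 2 1 (by norm_num)
        intro p hp
        rcases cls p hp with rfl | rfl | rfl | ⟨x, hx, rfl⟩ | ⟨x, hx, rfl⟩ | ⟨x, hx, rfl⟩
        · rw [vR0]; linarith
        · exact (n1 x1 hx1 hx1σ hp).elim
        · rw [vR2]; linarith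
        · exact (t0 ⟨x, hx, hp⟩).elim
        · rw [vT1]; linarith
        · exact (t2 ⟨x, hx, hp⟩).elim
    · by_cases t2 : ∃ x ∈ Hts, T2 N s x ∈ σ
      · exfalso
        obtain ⟨y, hy, hyσ⟩ := t2
        apply est 0 (-1) (by norm_num)
        intro p hp
        rcases cls p hp with rfl | rfl | rfl | ⟨x, hx, rfl⟩ | ⟨x, hx, rfl⟩ | ⟨x, hx, rfl⟩
        · rw [vR0]; linarith
        · rw [vR1]; linarith
        · exact (n2 y hy hyσ hp).elim
        · exact (t0 ⟨x, hx, hp⟩).elim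
        · exact (t1 ⟨x, hx, hp⟩).elim
        · rw [vT2]; exact hT2 x hx
      · refine ⟨0, Or.inl rfl, hull_eq hz _ _ ?_⟩
        intro p hp
        rcases cls p hp with rfl | rfl | rfl | ⟨x, hx, rfl⟩ | ⟨x, hx, rfl⟩ | ⟨x, hx, rfl⟩
        · rw [R0, P_i2]
        · rw [R1, P_i2]
        · rw [R2, P_i2]
        · exact (t0 ⟨x, hx, hp⟩).elim
        · exact (t1 ⟨x, hx, hp⟩).elim
        · exact (t2 ⟨x, hx, hp⟩).elim

/-- The shadow of the counterexample. -/
noncomputable def SS (N : ℕ) (s : ℝ) : Set (EuclideanSpace ℝ (Fin N)) :=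
  Shadow (RipsComplex (s * 50) (MM N s))

theorem key' {s : ℝ} (hs : 0 < s) {z : EuclideanSpace ℝ (Fin N)} (hz : z ∈ SS N s)
    (hz0 : |z (i0 N hN)| < s) (hz1 : |z (i1 N hN)| < s) :
    ∃ x ∈ Hts, z (i2 N hN) = s * x := by
  simp only [SS, Shadow, mem_iUnion] at hz
  obtain ⟨σ, ⟨_, hσM, hσ⟩, hzσ⟩ := hz
  exact key hN hs hσM hσ hzσ hz0 hz1

/-- A triangle with vertices pairwise closer than `s * 50` is a simplex; membership of an explicit
convex combination. -/
theorem mem_SS {s : ℝ} {p q r : EuclideanSpace ℝ (Fin N)} (hp : p ∈ MM N s)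
    (hq : q ∈ MM N s) (hr : r ∈ MM N s) (hpq : dist p q < s * 50) (hpr : dist p r < s * 50)
    (hqr : dist q r < s * 50) {a b c : ℝ} (ha : 0 ≤ a) (hb : 0 ≤ b) (hc : 0 ≤ c)
    (habc : a + b + c = 1) : a • p + b • q + c • r ∈ SS N s := by
  classical
  simp only [SS, Shadow, mem_iUnion]
  have hpos : 0 < s * 50 := lt_of_le_of_lt dist_nonneg hpq
  refine ⟨{p, q, r}, ⟨by simp, ?_, ?_⟩, ?_⟩
  · intro x hx
    simp only [Finset.coe_insert, Finset.coe_singleton, mem_insert_iff, mem_singleton_iff] at hx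
    rcases hx with rfl | rfl | rfl <;> assumption
  · refine lt_of_le_of_lt (Metric.diam_le_of_forall_dist_le
      (C := max (dist p q) (max (dist p r) (dist q r))) (by positivity) ?_) ?_
    · intro x hx y hy
      simp only [Finset.coe_insert, Finset.coe_singleton, mem_insert_iff, mem_singleton_iff] at hx hy
      rcases hx with rfl | rfl | rfl <;> rcases hy with rfl | rfl | rfl <;>
        simp [dist_comm]
    · exact max_lt hpq (max_lt hpr hqr)
  · have h1 : ∀ x ∈ ({p, q, r} : Finset (EuclideanSpace ℝ (Fin N))),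
        x ∈ convexHull ℝ ((({p, q, r} : Finset (EuclideanSpace ℝ (Fin N)))) : Set _) :=
      fun x hx => subset_convexHull ℝ _ hx
    have hconv := convex_convexHull ℝ ((({p, q, r} : Finset (EuclideanSpace ℝ (Fin N)))) : Set (EuclideanSpace ℝ (Fin N)))
    have hp' := h1 p (by simp)
    have hq' := h1 q (by simp)
    have hr' := h1 r (by simp)
    rcases eq_or_lt_of_le (add_nonneg ha hb) with h | h
    · have ha0 : a = 0 := by linarith
      have hb0 : b = 0 := by linarith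
      have hc1 : c = 1 := by linarith
      simpa [ha0, hb0, hc1] using hr'
    · have h2 : (a / (a + b)) • p + (b / (a + b)) • q ∈
          convexHull ℝ ((({p, q, r} : Finset (EuclideanSpace ℝ (Fin N)))) : Set (EuclideanSpace ℝ (Fin N))) :=
        hconv hp' hq' (by positivity) (by positivity) (by field_simp)
      have h3 := hconv h2 hr' h.le hc habc
      have h4 : (a + b) • ((a / (a + b)) • p + (b / (a + b)) • q) + c • r = a • p + b • q + c • r := by
        rw [smul_add, smul_smul, smul_smul, mul_div_cancel₀ _ h.ne', mul_div_cancel₀ _ h.ne']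
      rwa [h4] at h3

theorem P_comb (s a b c a' b' c' a'' b'' c'' x y z : ℝ) :
    x • P N s a b c + y • P N s a' b' c' + z • P N s a'' b'' c'' =
      P N s (x * a + y * a' + z * a'') (x * b + y * b' + z * b'') (x * c + y * c' + z * c'') := by
  ext i
  simp only [P, PiLp.add_apply, PiLp.smul_apply, smul_eq_mul]
  split_ifs <;> ring

include hN in
/-- The origin lies in the shadow. -/
theorem origin_mem {s : ℝ} (hs : 0 < s) : P N s 0 0 0 ∈ SS N s := by
  have h := mem_SS (s := s) (p := R0 N s) (q := R1 N s) (r := R2 N s)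
    (Or.inl (by simp)) (Or.inl (by simp)) (Or.inl (by simp))
    (dist_P_lt hN hs (by norm_num)) (dist_P_lt hN hs (by norm_num)) (dist_P_lt hN hs (by norm_num))
    (a := 25 / 94) (b := 25 / 94) (c := 44 / 94) (by norm_num) (by norm_num) (by norm_num)
    (by norm_num)
  rw [R0, R1, R2, P_comb] at h
  norm_num at h
  exact h

include hN in
/-- The axis points at heights `2^{-n}` lie in the shadow. -/
theorem axis_mem {s : ℝ} (hs : 0 < s) (n : ℕ) : P N s 0 0 ((1 / 2) ^ n) ∈ SS N s := by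
  set x : ℝ := (1 / 2) ^ n with hx
  have hxH : x ∈ Hts := Or.inr ⟨n, rfl⟩
  have hx0 : 0 < x := by positivity
  have hx1 : x ≤ 1 := (Hts_bounds hxH).2
  obtain ⟨u, hu⟩ : ∃ u, u = x ^ 2 / 384 := ⟨_, rfl⟩
  have hu0 : 0 < u := by rw [hu]; positivity
  have hu1 : u ≤ 1 := by rw [hu]; nlinarith
  obtain ⟨w, hw⟩ : ∃ w, w = 96 - 2 * u := ⟨_, rfl⟩
  have hw0 : 0 < w := by linarith
  have hw' : w ≠ 0 := hw0.ne'
  have hT2 : T2 N s x = P N s 0 (-26 + u) x := by rw [T2, hu]
  have hsum : (26 - u) / w + (26 - u) / w + 44 / w = 1 := by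
    rw [← add_div, ← add_div, div_eq_one_iff_eq hw']; linarith
  have h := mem_SS (s := s) (p := T0 N s x) (q := T1 N s x) (r := T2 N s x)
    (Or.inr (Or.inl ⟨x, hxH, rfl⟩)) (Or.inr (Or.inr (Or.inl ⟨x, hxH, rfl⟩)))
    (Or.inr (Or.inr (Or.inr ⟨x, hxH, rfl⟩)))
    (dist_P_lt hN hs (by norm_num)) (by rw [hT2]; exact dist_P_lt hN hs (by nlinarith))
    (by rw [hT2]; exact dist_P_lt hN hs (by nlinarith))
    (a := (26 - u) / w) (b := (26 - u) / w) (c := 44 / w)
    (by apply div_nonneg _ hw0.le; linarith) (by apply div_nonneg _ hw0.le; linarith)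
    (by positivity) hsum
  rw [hT2, T0, T1, P_comb] at h
  have e1 : (26 - u) / w * -14 + (26 - u) / w * 14 + 44 / w * 0 = 0 := by ring
  have e2 : (26 - u) / w * 22 + (26 - u) / w * 22 + 44 / w * (-26 + u) = 0 := by ring
  have e3 : (26 - u) / w * x + (26 - u) / w * x + 44 / w * x = x := by
    rw [← add_mul, ← add_mul, hsum, one_mul]
  rw [e1, e2, e3] at h
  exact h

include hN in
/-- Local disconnectedness at the origin, in the form needed: `SS` is not an ANR. -/
theorem not_isANR {s : ℝ} (hs : 0 < s) : ¬ IsANR (SS N s) := by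
  rintro ⟨-, hANR⟩
  -- the ambient space: `SS` with a metric collar
  let Zs : Set (EuclideanSpace ℝ (Fin N) × ℝ) := {p | 0 < p.2 ∨ (p.2 = 0 ∧ p.1 ∈ SS N s)}
  let e : SS N s → Zs := fun y => ⟨(y, 0), Or.inr ⟨rfl, y.2⟩⟩
  have he : IsClosedEmbedding e := by
    refine ⟨⟨?_, ?_⟩, ?_⟩
    · -- inducing
      have h1 : IsInducing (fun y : SS N s => ((y : EuclideanSpace ℝ (Fin N)), (0 : ℝ))) := by
        have h2 : IsInducing (fun p : EuclideanSpace ℝ (Fin N) => (p, (0 : ℝ))) :=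
          (isEmbedding_prodMkLeft (0 : ℝ)).isInducing
        exact h2.comp IsInducing.subtypeVal
      have h3 : IsInducing (Subtype.val ∘ e) := h1
      exact IsInducing.of_comp (by fun_prop) continuous_subtype_val h3
    · intro y y' h
      have h1 := congrArg (fun z : Zs => z.1.1) h
      exact Subtype.ext h1
    · have : range e = {z : Zs | z.1.2 = 0} := by
        ext z
        constructor
        · rintro ⟨y, rfl⟩
          rfl
        · intro hz
          have hz' : z.1.2 = 0 := hz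
          have h1 : z.1.1 ∈ SS N s := by
            rcases z.2 with h | h
            · exact absurd hz' h.ne'
            · exact h.2
          refine ⟨⟨z.1.1, h1⟩, ?_⟩
          apply Subtype.ext
          exact Prod.ext rfl hz'.symm
      rw [this]
      exact isClosed_eq (continuous_snd.comp continuous_subtype_val) continuous_const
  obtain ⟨U, hU, r, hr, hre⟩ := hANR Zs e he
  let O : SS N s := ⟨P N s 0 0 0, origin_mem hN hs⟩
  have hUO : U ∈ 𝓝 (e O) := mem_nhdsSet_iff_forall.1 hU (e O) ⟨O, rfl⟩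
  have hO : e O ∈ U := mem_of_mem_nhds hUO
  let W : Set (SS N s) := {y | |(y : EuclideanSpace ℝ (Fin N)) (i0 N hN)| < s ∧
    |(y : EuclideanSpace ℝ (Fin N)) (i1 N hN)| < s}
  have hci : ∀ i : Fin N, Continuous (fun y : SS N s => |(y : EuclideanSpace ℝ (Fin N)) i|) := by
    intro i
    have h1 : Continuous (fun p : EuclideanSpace ℝ (Fin N) => p i) := by fun_prop
    exact (h1.comp continuous_subtype_val).abs
  have hW : IsOpen W :=
    (isOpen_lt (hci _) continuous_const).inter (isOpen_lt (hci _) continuous_const)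
  have hOW : O ∈ W := by
    constructor
    · change |(P N s 0 0 0) (i0 N hN)| < s
      rw [P_i0]; simpa using hs
    · change |(P N s 0 0 0) (i1 N hN)| < s
      rw [P_i1]; simpa using hs
  have hev : ∀ᶠ z in 𝓝 (e O), ∃ h : z ∈ U, r ⟨z, h⟩ ∈ W := by
    rw [← map_nhds_subtype_coe_eq_nhds hO hUO, Filter.eventually_map]
    have h1 : r ⁻¹' W ∈ 𝓝 (⟨e O, hO⟩ : U) := by
      apply hr.continuousAt
      rw [hre O hO]
      exact hW.mem_nhds hOW
    filter_upwards [h1] with z hz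
    exact ⟨z.2, hz⟩
  obtain ⟨ε, hε, hball⟩ := Metric.eventually_nhds_iff.1 hev
  obtain ⟨n, hn⟩ : ∃ n : ℕ, (s + 1) * (1 / 2 : ℝ) ^ n < ε := by
    obtain ⟨n, hn⟩ := exists_pow_lt_of_lt_one (show (0 : ℝ) < ε / (s + 1) by positivity)
      (show (1 / 2 : ℝ) < 1 by norm_num)
    refine ⟨n, ?_⟩
    rw [lt_div_iff₀ (by linarith)] at hn
    linarith
  set x : ℝ := (1 / 2) ^ n with hx
  have hx0 : 0 < x := by positivity
  -- the path
  have hγmem : ∀ t : unitInterval,
      ((P N s 0 0 ((t : ℝ) * x), (t : ℝ) * (1 - t) * x) : EuclideanSpace ℝ (Fin N) × ℝ) ∈ Zs := by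
    intro t
    rcases eq_or_lt_of_le t.2.1 with h0 | h0
    · right
      rw [← h0]
      refine ⟨by simp, ?_⟩
      simpa using origin_mem hN hs
    · rcases eq_or_lt_of_le t.2.2 with h1 | h1
      · right
        rw [h1]
        refine ⟨by simp, ?_⟩
        have h2 := axis_mem hN hs n
        rw [← hx] at h2
        simpa using h2
      · left
        have : 0 < 1 - (t : ℝ) := by linarith
        change 0 < (t : ℝ) * (1 - t) * x
        positivity
  let γ : unitInterval → Zs := fun t => ⟨_, hγmem t⟩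
  have hγ : Continuous γ := by
    apply Continuous.subtype_mk
    apply Continuous.prodMk
    · exact continuous_P s continuous_const continuous_const (by fun_prop)
    · fun_prop
  have hγball : ∀ t, dist (γ t) (e O) < ε := by
    intro t
    refine lt_of_le_of_lt ?_ hn
    change dist ((P N s 0 0 ((t : ℝ) * x), (t : ℝ) * (1 - t) * x) : EuclideanSpace ℝ (Fin N) × ℝ)
      (P N s 0 0 0, 0) ≤ (s + 1) * x
    rw [Prod.dist_eq]
    have ht0 := t.2.1
    have ht1 := t.2.2
    apply max_le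
    · change dist (P N s 0 0 ((t : ℝ) * x)) (P N s 0 0 0) ≤ _
      rw [dist_P hN hs]
      have h1 : Real.sqrt ((0 - 0 : ℝ) ^ 2 + (0 - 0) ^ 2 + ((t : ℝ) * x - 0) ^ 2) = (t : ℝ) * x := by
        rw [show (0 - 0 : ℝ) ^ 2 + (0 - 0) ^ 2 + ((t : ℝ) * x - 0) ^ 2 = ((t : ℝ) * x) ^ 2 by ring]
        exact Real.sqrt_sq (by positivity)
      rw [h1]
      have h2 : (t : ℝ) * x ≤ x := by nlinarith
      nlinarith
    · change dist ((t : ℝ) * (1 - t) * x) 0 ≤ _
      rw [Real.dist_eq, sub_zero, abs_of_nonneg (by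
        have : 0 ≤ 1 - (t : ℝ) := by linarith
        positivity)]
      have h2 : (t : ℝ) * (1 - t) ≤ 1 := by nlinarith
      nlinarith [mul_le_mul_of_nonneg_right h2 hx0.le]
  have hγU : ∀ t, γ t ∈ U := fun t => (hball (hγball t)).1
  have hγW : ∀ t, r ⟨γ t, hγU t⟩ ∈ W := fun t => (hball (hγball t)).2
  let F : unitInterval → ℝ := fun t => (r ⟨γ t, hγU t⟩ : EuclideanSpace ℝ (Fin N)) (i2 N hN)
  have hF : Continuous F := by
    have h1 : Continuous (fun t => r ⟨γ t, hγU t⟩) := hr.comp (hγ.subtype_mk _)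
    have h2 : Continuous (fun t => (r ⟨γ t, hγU t⟩ : EuclideanSpace ℝ (Fin N))) :=
      continuous_subtype_val.comp h1
    fun_prop
  have hF0 : F 0 = 0 := by
    have h1 : γ 0 = e O := by
      apply Subtype.ext
      change ((P N s 0 0 (((0 : unitInterval) : ℝ) * x),
        ((0 : unitInterval) : ℝ) * (1 - ((0 : unitInterval) : ℝ)) * x) :
          EuclideanSpace ℝ (Fin N) × ℝ) = (P N s 0 0 0, 0)
      simp
    have h2 : r ⟨γ 0, hγU 0⟩ = O := by
      have h3 := hre O hO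
      have h4 : (⟨γ 0, hγU 0⟩ : U) = ⟨e O, hO⟩ := Subtype.ext h1
      rw [h4, h3]
    simp only [F]
    rw [h2]
    change (P N s 0 0 0) (i2 N hN) = 0
    rw [P_i2]; simp
  let Y : SS N s := ⟨P N s 0 0 x, axis_mem hN hs n⟩
  have hF1 : F 1 = s * x := by
    have h1 : γ 1 = e Y := by
      apply Subtype.ext
      change ((P N s 0 0 (((1 : unitInterval) : ℝ) * x),
        ((1 : unitInterval) : ℝ) * (1 - ((1 : unitInterval) : ℝ)) * x) :
          EuclideanSpace ℝ (Fin N) × ℝ) = (P N s 0 0 x, 0)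
      simp
    have hY : e Y ∈ U := h1 ▸ hγU 1
    have h2 : r ⟨γ 1, hγU 1⟩ = Y := by
      have h3 := hre Y hY
      have h4 : (⟨γ 1, hγU 1⟩ : U) = ⟨e Y, hY⟩ := Subtype.ext h1
      rw [h4, h3]
    simp only [F]
    rw [h2]
    change (P N s 0 0 x) (i2 N hN) = s * x
    rw [P_i2]
  have hivt := intermediate_value_univ (0 : unitInterval) 1 hF
  rw [hF0, hF1] at hivt
  obtain ⟨t, ht⟩ := hivt (show s * (3 / 4 * x) ∈ Icc 0 (s * x) from
    ⟨by positivity, by nlinarith [mul_pos hs hx0]⟩)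
  obtain ⟨y, hy, hyt⟩ := key' hN hs (r ⟨γ t, hγU t⟩).2 (hγW t).1 (hγW t).2
  have h5 : s * (3 / 4 * x) = s * y := by rw [← ht]; exact hyt
  have h6 : 3 / 4 * x = y := mul_left_cancel₀ hs.ne' h5
  exact Hts_not (n := n) (by rw [← hx, h6]; exact hy)

end Construction

/-- For every `N ≥ 3` and every scale `β > 0` there is a nonempty compact subset `M` of Euclidean
`N`-space such that the shadow of the Vietoris-Rips complex of `M` at scale `β` is not an ANR. -/
theorem result (N : ℕ) (hN : 3 ≤ N) (β : ℝ) (hβ : 0 < β) :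
    ∃ M : Set (EuclideanSpace ℝ (Fin N)), M.Nonempty ∧ IsCompact M ∧
      ¬ IsANR (Shadow (RipsComplex β M)) := by
  refine ⟨MM N (β / 50), ⟨R0 N (β / 50), Or.inl (by simp)⟩, isCompact_MM _, ?_⟩
  have h := not_isANR hN (s := β / 50) (by positivity)
  have h1 : β / 50 * 50 = β := by ring
  rw [SS, h1] at h
  exact h

end Pool.Agent.Results.MP_68dc86_gt.ShadowNotANR
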